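import Pool.Agent.H798.BV.Stm7

/-!
# S_L1 (helper628 for helper798): the integral of the product when `√m |s|` is large
-/

set_option autoImplicit false

open MeasureTheory

namespace Pool.Agent.H628.BV

open Pool.Agent.H798.BV

variable {m : ℕ}

theorem cont_fS (l : Fin m → ℂ) (S : Finset (Fin m)) : Continuous (fun u : ℝ => fS l S u) := by
  unfold fS
  fun_prop

theorem fS_insert (l : Fin m → ℂ) (S : Finset (Fin m)) {k : Fin m} (hk : k ∈ Sᶜ) (u : ℝ) :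
    fS l (insert k S) u = fS l S u + (u : ℂ) * l k * fS l (insert k S) u := by
  have h : fS l S u = (1 - (u : ℂ) * l k) * fS l (insert k S) u := by
    unfold fS
    rw [Finset.compl_insert, Finset.mul_prod_erase Sᶜ (fun k => 1 - (u : ℂ) * l k) hk]
  rw [h]
  ring

theorem deriv_fS (l : Fin m → ℂ) (S : Finset (Fin m)) (u : ℝ) :
    HasDerivAt (fun u : ℝ => fS l S u)
      (-(∑ k ∈ Sᶜ, l k) * fS l S u - ∑ k ∈ Sᶜ, l k ^ 2 * ((u : ℂ) * fS l (insert k S) u)) u := by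
  have h1 : ∀ k ∈ Sᶜ, HasDerivAt (fun u : ℝ => 1 - (u : ℂ) * l k) (-(l k)) u := by
    intro k _
    have h := ((Complex.ofRealCLM.hasDerivAt (x := u)).mul_const (l k)).const_sub 1
    simpa using h
  have h2 := HasDerivAt.fun_finset_prod h1
  have h3 : ∀ k ∈ Sᶜ, (∏ j ∈ Sᶜ.erase k, (1 - (u : ℂ) * l j)) • (-(l k)) =
      -(l k * fS l S u) - l k ^ 2 * ((u : ℂ) * fS l (insert k S) u) := by
    intro k hk
    have h4 := fS_insert l S hk u
    have h5 : (∏ j ∈ Sᶜ.erase k, (1 - (u : ℂ) * l j)) = fS l (insert k S) u := by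
      unfold fS
      rw [Finset.compl_insert]
    rw [h5, smul_eq_mul]
    linear_combination (-(l k)) * h4
  rw [Finset.sum_congr rfl h3, Finset.sum_sub_distrib, Finset.sum_neg_distrib,
    ← Finset.sum_mul, ← neg_mul] at h2
  exact h2

theorem fS_zero (l : Fin m → ℂ) (S : Finset (Fin m)) : fS l S 0 = 1 := by
  simp [fS]

theorem int1 (l : Fin m → ℂ) (S : Finset (Fin m)) (a : ℝ) :
    (∑ k ∈ Sᶜ, l k) * ∫ u in (0 : ℝ)..a, fS l S u = 1 - fS l S a -
      ∑ k ∈ Sᶜ, l k ^ 2 * ∫ u in (0 : ℝ)..a, (u : ℂ) * fS l (insert k S) u := by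
  have c0 := cont_fS l S
  have c1 : ∀ k, Continuous (fun u : ℝ => l k ^ 2 * ((u : ℂ) * fS l (insert k S) u)) := fun k =>
    continuous_const.mul (Complex.continuous_ofReal.mul (cont_fS l (insert k S)))
  have c2 : Continuous (fun u : ℝ => ∑ k ∈ Sᶜ, l k ^ 2 * ((u : ℂ) * fS l (insert k S) u)) :=
    continuous_finset_sum _ fun k _ => c1 k
  have c4 : Continuous (fun u : ℝ => -(∑ k ∈ Sᶜ, l k) * fS l S u) := continuous_const.mul c0
  have c5 : Continuous (fun u : ℝ => -(∑ k ∈ Sᶜ, l k) * fS l S u -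
      ∑ k ∈ Sᶜ, l k ^ 2 * ((u : ℂ) * fS l (insert k S) u)) := c4.sub c2
  have h := intervalIntegral.integral_eq_sub_of_hasDerivAt (a := 0) (b := a)
    (fun u _ => deriv_fS l S u) (c5.intervalIntegrable 0 a)
  rw [intervalIntegral.integral_sub (c4.intervalIntegrable 0 a)
    (c2.intervalIntegrable 0 a), intervalIntegral.integral_const_mul,
    intervalIntegral.integral_finset_sum (fun k _ => (c1 k).intervalIntegrable 0 a), fS_zero] at h
  simp only [intervalIntegral.integral_const_mul] at h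
  linear_combination -h

theorem int2 (l : Fin m → ℂ) (S : Finset (Fin m)) (a : ℝ) :
    (∑ k ∈ Sᶜ, l k) * ∫ u in (0 : ℝ)..a, (u : ℂ) * fS l S u =
      (∫ u in (0 : ℝ)..a, fS l S u) - a * fS l S a -
      ∑ k ∈ Sᶜ, l k ^ 2 * ∫ u in (0 : ℝ)..a, (u : ℂ) ^ 2 * fS l (insert k S) u := by
  have c0 := cont_fS l S
  have c3 : Continuous (fun u : ℝ => (u : ℂ) * fS l S u) := Complex.continuous_ofReal.mul c0
  have c1 : ∀ k, Continuous (fun u : ℝ => l k ^ 2 * ((u : ℂ) ^ 2 * fS l (insert k S) u)) := fun k =>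
    continuous_const.mul ((Complex.continuous_ofReal.pow 2).mul (cont_fS l (insert k S)))
  have c2 : Continuous (fun u : ℝ => ∑ k ∈ Sᶜ, l k ^ 2 * ((u : ℂ) ^ 2 * fS l (insert k S) u)) :=
    continuous_finset_sum _ fun k _ => c1 k
  have hd : ∀ u : ℝ, HasDerivAt (fun u : ℝ => (u : ℂ) * fS l S u)
      (fS l S u + (-(∑ k ∈ Sᶜ, l k) * ((u : ℂ) * fS l S u) -
        ∑ k ∈ Sᶜ, l k ^ 2 * ((u : ℂ) ^ 2 * fS l (insert k S) u))) u := by
    intro u
    have e1 : HasDerivAt (fun u : ℝ => (u : ℂ)) 1 u := Complex.ofRealCLM.hasDerivAt (x := u)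
    have e2 := e1.mul (deriv_fS l S u)
    refine e2.congr_deriv ?_
    rw [one_mul, mul_sub, Finset.mul_sum]
    congr 1
    congr 1
    · ring
    · refine Finset.sum_congr rfl fun k _ => ?_
      ring
  have c4 : Continuous (fun u : ℝ => -(∑ k ∈ Sᶜ, l k) * ((u : ℂ) * fS l S u)) :=
    continuous_const.mul c3
  have c5 : Continuous (fun u : ℝ => -(∑ k ∈ Sᶜ, l k) * ((u : ℂ) * fS l S u) -
      ∑ k ∈ Sᶜ, l k ^ 2 * ((u : ℂ) ^ 2 * fS l (insert k S) u)) := c4.sub c2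
  have c6 : Continuous (fun u : ℝ => fS l S u + (-(∑ k ∈ Sᶜ, l k) * ((u : ℂ) * fS l S u) -
      ∑ k ∈ Sᶜ, l k ^ 2 * ((u : ℂ) ^ 2 * fS l (insert k S) u))) := c0.add c5
  have h := intervalIntegral.integral_eq_sub_of_hasDerivAt (a := 0) (b := a)
    (fun u _ => hd u) (c6.intervalIntegrable 0 a)
  rw [intervalIntegral.integral_add (c0.intervalIntegrable 0 a) (c5.intervalIntegrable 0 a),
    intervalIntegral.integral_sub (c4.intervalIntegrable 0 a)
    (c2.intervalIntegrable 0 a), intervalIntegral.integral_const_mul,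
    intervalIntegral.integral_finset_sum (fun k _ => (c1 k).intervalIntegrable 0 a)] at h
  simp only [intervalIntegral.integral_const_mul, Complex.ofReal_zero, zero_mul, sub_zero] at h
  linear_combination -h

/-! ### Gaussian bounds -/

theorem gauss {b a : ℝ} (hb : 0 < b) (ha : 0 ≤ a) :
    ∫ u in (0 : ℝ)..a, Real.exp (-(b * u ^ 2)) ≤ Real.sqrt (Real.pi / b) / 2 := by
  rw [intervalIntegral.integral_of_le ha, ← integral_gaussian_Ioi b]
  have h1 : ∀ u : ℝ, Real.exp (-(b * u ^ 2)) = Real.exp (-b * u ^ 2) := fun u => by rw [neg_mul]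
  simp only [h1]
  refine setIntegral_mono_set (integrable_exp_neg_mul_sq hb).integrableOn ?_ ?_
  · exact Filter.Eventually.of_forall fun u => (Real.exp_pos _).le
  · exact Set.Ioc_subset_Ioi_self.eventuallyLE

theorem pt2 {b : ℝ} (hb : 0 < b) (u : ℝ) :
    u ^ 2 * Real.exp (-(b * u ^ 2)) ≤ 2 / b * Real.exp (-(b / 2 * u ^ 2)) := by
  obtain ⟨x, hx⟩ : ∃ x : ℝ, x = b / 2 * u ^ 2 := ⟨_, rfl⟩
  have hu : u ^ 2 = 2 / b * x := by
    rw [hx]
    field_simp
  have h1 : b * u ^ 2 = x + x := by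
    rw [hx]
    ring
  rw [h1, ← hx, neg_add, Real.exp_add, hu]
  have h2 : x ≤ Real.exp x := by linarith [Real.add_one_le_exp x]
  have h3 : x * Real.exp (-x) ≤ 1 := by
    calc x * Real.exp (-x) ≤ Real.exp x * Real.exp (-x) :=
          mul_le_mul_of_nonneg_right h2 (Real.exp_pos _).le
      _ = 1 := by rw [← Real.exp_add, add_neg_cancel, Real.exp_zero]
  have h4 : 0 ≤ 2 / b * Real.exp (-x) := by positivity
  calc 2 / b * x * (Real.exp (-x) * Real.exp (-x)) = (x * Real.exp (-x)) * (2 / b * Real.exp (-x)) := by ring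
    _ ≤ 1 * (2 / b * Real.exp (-x)) := mul_le_mul_of_nonneg_right h3 h4
    _ = _ := one_mul _

theorem gauss2 {b a : ℝ} (hb : 0 < b) (ha : 0 ≤ a) :
    ∫ u in (0 : ℝ)..a, u ^ 2 * Real.exp (-(b * u ^ 2)) ≤
      2 / b * (Real.sqrt (Real.pi / (b / 2)) / 2) := by
  have c1 : Continuous (fun u : ℝ => u ^ 2 * Real.exp (-(b * u ^ 2))) := by fun_prop
  have c2 : Continuous (fun u : ℝ => 2 / b * Real.exp (-(b / 2 * u ^ 2))) := by fun_prop
  calc ∫ u in (0 : ℝ)..a, u ^ 2 * Real.exp (-(b * u ^ 2))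
      ≤ ∫ u in (0 : ℝ)..a, 2 / b * Real.exp (-(b / 2 * u ^ 2)) :=
        intervalIntegral.integral_mono_on ha (c1.intervalIntegrable 0 a) (c2.intervalIntegrable 0 a)
          fun u _ => pt2 hb u
    _ = 2 / b * ∫ u in (0 : ℝ)..a, Real.exp (-(b / 2 * u ^ 2)) :=
        intervalIntegral.integral_const_mul _ _
    _ ≤ _ := mul_le_mul_of_nonneg_left (gauss (by positivity) ha) (by positivity)

theorem pt1 {b a : ℝ} (hb : 0 < b) (ha : 0 ≤ a) : a * Real.exp (-(b * a ^ 2)) ≤ 1 / Real.sqrt b := by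
  have hs : 0 < Real.sqrt b := Real.sqrt_pos.2 hb
  rw [le_div_iff₀ hs]
  obtain ⟨y, hy⟩ : ∃ y : ℝ, y = Real.sqrt b * a := ⟨_, rfl⟩
  have h1 : b * a ^ 2 = y ^ 2 := by
    rw [hy, mul_pow, Real.sq_sqrt hb.le]
  have h2 : a * Real.exp (-(b * a ^ 2)) * Real.sqrt b = y * Real.exp (-(y ^ 2)) := by
    rw [h1, hy]
    ring
  rw [h2]
  have h3 : y ≤ Real.exp (y ^ 2) := by nlinarith [Real.add_one_le_exp (y ^ 2), sq_nonneg (y - 1)]
  calc y * Real.exp (-(y ^ 2)) ≤ Real.exp (y ^ 2) * Real.exp (-(y ^ 2)) :=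
        mul_le_mul_of_nonneg_right h3 (Real.exp_pos _).le
    _ = 1 := by rw [← Real.exp_add, add_neg_cancel, Real.exp_zero]

theorem t_L1 : S_L1 := by
  intro C₀ c₀ hC hc
  obtain ⟨P, hP⟩ : ∃ P : ℝ, P = Real.sqrt (Real.pi / c₀) := ⟨_, rfl⟩
  obtain ⟨R, hR⟩ : ∃ R : ℝ, R = 1 / Real.sqrt c₀ := ⟨_, rfl⟩
  have hP0 : 0 ≤ P := by rw [hP]; exact Real.sqrt_nonneg _
  have hR0 : 0 ≤ R := by rw [hR]; positivity
  obtain ⟨C₁, hC₁⟩ : ∃ C₁ : ℝ, C₁ = C₀ * (P + R + 2 * P / c₀) := ⟨_, rfl⟩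
  have hC₁0 : 0 ≤ C₁ := by rw [hC₁]; positivity
  obtain ⟨K₀, hK₀⟩ : ∃ K₀ : ℝ, K₀ = 2 + 4 * C₁ + 4 * C₀ / c₀ := ⟨_, rfl⟩
  have hCc : 0 ≤ 4 * C₀ / c₀ := by positivity
  refine ⟨K₀, by linarith, ?_⟩
  intro m l a hm ha hK hl hf hs
  have hm0 : (0 : ℝ) < m := by exact_mod_cast hm
  obtain ⟨q, hq⟩ : ∃ q : ℝ, q = Real.sqrt m := ⟨_, rfl⟩
  have hq0 : 0 < q := by rw [hq]; exact Real.sqrt_pos.2 hm0
  have hqq : q * q = m := by rw [hq]; exact Real.mul_self_sqrt hm0.le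
  rw [← hq] at hs
  -- the integrals of the bounds
  have hb : 0 < c₀ * m := by positivity
  have g1 : ∫ u in (0 : ℝ)..a, C₀ * Real.exp (-(c₀ * (m * u ^ 2))) ≤ C₀ * P / q := by
    have e1 : ∀ u : ℝ, C₀ * Real.exp (-(c₀ * (m * u ^ 2))) = C₀ * Real.exp (-(c₀ * m * u ^ 2)) :=
      fun u => by rw [mul_assoc c₀]
    simp only [e1]
    rw [intervalIntegral.integral_const_mul]
    have e2 := gauss hb ha.le
    have e3 : Real.sqrt (Real.pi / (c₀ * m)) = P / q := by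
      rw [hP, hq, ← Real.sqrt_div (by positivity), div_div]
    rw [e3] at e2
    have e4 : 0 ≤ P / q := by positivity
    calc C₀ * ∫ u in (0 : ℝ)..a, Real.exp (-(c₀ * m * u ^ 2)) ≤ C₀ * (P / q / 2) :=
          mul_le_mul_of_nonneg_left e2 hC.le
      _ ≤ C₀ * (P / q) := mul_le_mul_of_nonneg_left (by linarith) hC.le
      _ = _ := by ring
  have g2 : ∫ u in (0 : ℝ)..a, C₀ * (u ^ 2 * Real.exp (-(c₀ * (m * u ^ 2)))) ≤
      C₀ * (2 * P / c₀) / (m * q) := by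
    have e1 : ∀ u : ℝ, C₀ * (u ^ 2 * Real.exp (-(c₀ * (m * u ^ 2)))) =
        C₀ * (u ^ 2 * Real.exp (-(c₀ * m * u ^ 2))) := fun u => by rw [mul_assoc c₀]
    simp only [e1]
    rw [intervalIntegral.integral_const_mul]
    have e2 := gauss2 hb ha.le
    have e3 : Real.sqrt (Real.pi / (c₀ * m / 2)) ≤ 2 * (P / q) := by
      have e5 : Real.pi / (c₀ * m / 2) = 2 * (Real.pi / c₀ / m) := by field_simp
      have e6 : 2 * (P / q) = Real.sqrt (4 * (Real.pi / c₀ / m)) := by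
        rw [Real.sqrt_mul (by norm_num), Real.sqrt_div (by positivity), ← hP, ← hq]
        congr 1
        rw [show (4 : ℝ) = 2 ^ 2 by norm_num]
        exact (Real.sqrt_sq (by norm_num)).symm
      rw [e5, e6]
      refine Real.sqrt_le_sqrt ?_
      have : 0 ≤ Real.pi / c₀ / m := by positivity
      linarith
    have e4 : 2 / (c₀ * m) * (Real.sqrt (Real.pi / (c₀ * m / 2)) / 2) ≤
        2 / (c₀ * m) * (P / q) := mul_le_mul_of_nonneg_left (by linarith) (by positivity)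
    calc C₀ * ∫ u in (0 : ℝ)..a, u ^ 2 * Real.exp (-(c₀ * m * u ^ 2)) ≤
          C₀ * (2 / (c₀ * m) * (P / q)) := mul_le_mul_of_nonneg_left (e2.trans e4) hC.le
      _ = _ := by
        field_simp
  have g3 : a * (C₀ * Real.exp (-(c₀ * (m * a ^ 2)))) ≤ C₀ * R / q := by
    have e2 := pt1 hb ha.le
    have e3 : 1 / Real.sqrt (c₀ * m) = R / q := by
      rw [hR, hq, Real.sqrt_mul hc.le, div_div]
    rw [e3] at e2
    calc a * (C₀ * Real.exp (-(c₀ * (m * a ^ 2)))) = C₀ * (a * Real.exp (-(c₀ * m * a ^ 2))) := by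
          rw [mul_assoc c₀]
          ring
      _ ≤ C₀ * (R / q) := mul_le_mul_of_nonneg_left e2 hC.le
      _ = _ := by ring
  -- the sum
  obtain ⟨Λ, hΛ⟩ : ∃ Λ : ℂ, Λ = ∑ k, l k := ⟨_, rfl⟩
  have hnΛ : (m : ℝ) * ‖(∑ k, l k) / m‖ = ‖Λ‖ := by
    rw [← hΛ, norm_div, Complex.norm_natCast]
    field_simp
  have hΛK : q * K₀ ≤ ‖Λ‖ := by
    rw [← hnΛ, ← hqq, mul_assoc]
    exact mul_le_mul_of_nonneg_left hs hq0.le
  have hlj : ∀ j, ‖l j‖ ≤ q := by
    intro j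
    have h1 : ‖l j‖ ^ 2 ≤ m :=
      (Finset.single_le_sum (f := fun k => ‖l k‖ ^ 2) (fun k _ => sq_nonneg _)
        (Finset.mem_univ j)).trans hl
    rw [hq]
    exact Real.le_sqrt_of_sq_le h1
  have hK1 : 0 < K₀ - 1 := by linarith
  -- the second order integrals
  have hj : ∀ j, ‖∫ u in (0 : ℝ)..a, (u : ℂ) * fS l (insert j ∅) u‖ ≤ C₁ / (m * (K₀ - 1)) := by
    intro j
    obtain ⟨J, hJ⟩ : ∃ J : Finset (Fin m), J = insert j ∅ := ⟨_, rfl⟩
    rw [← hJ]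
    have hJc : J.card ≤ 2 := by
      rw [hJ]
      exact (Finset.card_insert_le _ _).trans (by simp)
    have hJs : ∑ k ∈ Jᶜ, l k = Λ - l j := by
      have h1 := Finset.sum_add_sum_compl J l
      have h2 : ∑ k ∈ J, l k = l j := by rw [hJ]; simp
      rw [h2] at h1
      rw [hΛ, ← h1]
      ring
    have hI := int2 l J a
    rw [hJs] at hI
    have n1 : ‖∫ u in (0 : ℝ)..a, fS l J u‖ ≤ C₀ * P / q := by
      refine (intervalIntegral.norm_integral_le_of_norm_le ha.le ?_ ?_).trans g1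
      · refine Filter.Eventually.of_forall fun u hu => ?_
        exact hf J hJc u hu.1.le hu.2
      · exact (by fun_prop : Continuous fun u : ℝ => C₀ * Real.exp (-(c₀ * (m * u ^ 2)))).intervalIntegrable 0 a
    have n2 : ‖(a : ℂ) * fS l J a‖ ≤ C₀ * R / q := by
      rw [norm_mul, Complex.norm_real, Real.norm_of_nonneg ha.le]
      exact (mul_le_mul_of_nonneg_left (hf J hJc a ha.le le_rfl) ha.le).trans g3
    have n3 : ∀ k, ‖∫ u in (0 : ℝ)..a, (u : ℂ) ^ 2 * fS l (insert k J) u‖ ≤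
        C₀ * (2 * P / c₀) / (m * q) := by
      intro k
      have hkc : (insert k J).card ≤ 2 := by
        refine (Finset.card_insert_le _ _).trans ?_
        rw [hJ]
        simp
      refine (intervalIntegral.norm_integral_le_of_norm_le ha.le ?_ ?_).trans g2
      · refine Filter.Eventually.of_forall fun u hu => ?_
        have := hf (insert k J) hkc u hu.1.le hu.2
        rw [norm_mul, norm_pow, Complex.norm_real, Real.norm_of_nonneg hu.1.le]
        calc u ^ 2 * ‖fS l (insert k J) u‖ ≤ u ^ 2 * (C₀ * Real.exp (-(c₀ * (m * u ^ 2)))) :=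
              mul_le_mul_of_nonneg_left this (sq_nonneg u)
          _ = _ := by ring
      · exact (by fun_prop : Continuous fun u : ℝ =>
          C₀ * (u ^ 2 * Real.exp (-(c₀ * (m * u ^ 2))))).intervalIntegrable 0 a
    have n4 : ‖∑ k ∈ Jᶜ, l k ^ 2 * ∫ u in (0 : ℝ)..a, (u : ℂ) ^ 2 * fS l (insert k J) u‖ ≤
        C₀ * (2 * P / c₀) / q := by
      calc ‖∑ k ∈ Jᶜ, l k ^ 2 * ∫ u in (0 : ℝ)..a, (u : ℂ) ^ 2 * fS l (insert k J) u‖
          ≤ ∑ k ∈ Jᶜ, ‖l k‖ ^ 2 * (C₀ * (2 * P / c₀) / (m * q)) := by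
            refine norm_sum_le_of_le _ fun k _ => ?_
            rw [norm_mul, norm_pow]
            exact mul_le_mul_of_nonneg_left (n3 k) (sq_nonneg _)
        _ = (∑ k ∈ Jᶜ, ‖l k‖ ^ 2) * (C₀ * (2 * P / c₀) / (m * q)) := by rw [Finset.sum_mul]
        _ ≤ m * (C₀ * (2 * P / c₀) / (m * q)) := by
            refine mul_le_mul_of_nonneg_right (le_trans ?_ hl) (by positivity)
            exact Finset.sum_le_sum_of_subset_of_nonneg (Finset.subset_univ _)
              fun k _ _ => sq_nonneg _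
        _ = _ := by field_simp
    have n5 : ‖(Λ - l j) * ∫ u in (0 : ℝ)..a, (u : ℂ) * fS l J u‖ ≤ C₁ / q := by
      rw [hI]
      calc _ ≤ ‖(∫ u in (0 : ℝ)..a, fS l J u) - a * fS l J a‖ +
            ‖∑ k ∈ Jᶜ, l k ^ 2 * ∫ u in (0 : ℝ)..a, (u : ℂ) ^ 2 * fS l (insert k J) u‖ :=
            norm_sub_le _ _
        _ ≤ (‖∫ u in (0 : ℝ)..a, fS l J u‖ + ‖(a : ℂ) * fS l J a‖) + C₀ * (2 * P / c₀) / q :=
            add_le_add (norm_sub_le _ _) n4
        _ ≤ (C₀ * P / q + C₀ * R / q) + C₀ * (2 * P / c₀) / q := by linarith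
        _ = C₁ / q := by
            rw [hC₁]
            ring
    have n6 : q * (K₀ - 1) ≤ ‖Λ - l j‖ := by
      have h1 : ‖Λ‖ - ‖l j‖ ≤ ‖Λ - l j‖ := norm_sub_norm_le _ _
      have h2 := hlj j
      nlinarith
    rw [norm_mul] at n5
    have n7 : q * (K₀ - 1) * ‖∫ u in (0 : ℝ)..a, (u : ℂ) * fS l J u‖ ≤ C₁ / q :=
      (mul_le_mul_of_nonneg_right n6 (norm_nonneg _)).trans n5
    rw [le_div_iff₀ hq0] at n7
    rw [le_div_iff₀ (by positivity), ← hqq]
    calc ‖∫ u in (0 : ℝ)..a, (u : ℂ) * fS l J u‖ * (q * q * (K₀ - 1)) =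
          q * (K₀ - 1) * ‖∫ u in (0 : ℝ)..a, (u : ℂ) * fS l J u‖ * q := by ring
      _ ≤ C₁ := n7
  -- the first order identity
  have hI := int1 l ∅ a
  have hfe : ∀ u : ℝ, fS l ∅ u = ∏ k, (1 - (u : ℂ) * l k) := by
    intro u
    simp [fS]
  rw [Finset.compl_empty, ← hΛ] at hI
  have m1 : ‖fS l ∅ a‖ ≤ 1 / 4 := by
    have h1 := hf ∅ (by simp) a ha.le le_rfl
    have hK0 : 0 < K₀ := by linarith
    have hx : 0 < c₀ * (m * a ^ 2) := by positivity
    have h2 : Real.exp (-(c₀ * (m * a ^ 2))) ≤ 1 / (c₀ * K₀) := by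
      rw [Real.exp_neg, ← one_div]
      refine one_div_le_one_div_of_le (by positivity) ?_
      have h3 := Real.add_one_le_exp (c₀ * (m * a ^ 2))
      have h4 : c₀ * K₀ ≤ c₀ * (m * a ^ 2) := mul_le_mul_of_nonneg_left hK hc.le
      linarith
    refine h1.trans ((mul_le_mul_of_nonneg_left h2 hC.le).trans ?_)
    rw [mul_one_div, div_le_div_iff₀ (by positivity) (by norm_num)]
    have h5 : 4 * C₀ / c₀ ≤ K₀ := by linarith
    rw [div_le_iff₀ hc] at h5
    linarith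
  have m2 : ‖∑ k ∈ Finset.univ, l k ^ 2 * ∫ u in (0 : ℝ)..a, (u : ℂ) * fS l (insert k ∅) u‖ ≤ 1 / 4 := by
    calc ‖∑ k ∈ Finset.univ, l k ^ 2 * ∫ u in (0 : ℝ)..a, (u : ℂ) * fS l (insert k ∅) u‖
        ≤ ∑ k ∈ Finset.univ, ‖l k‖ ^ 2 * (C₁ / (m * (K₀ - 1))) := by
          refine norm_sum_le_of_le _ fun k _ => ?_
          rw [norm_mul, norm_pow]
          exact mul_le_mul_of_nonneg_left (hj k) (sq_nonneg _)
      _ = (∑ k, ‖l k‖ ^ 2) * (C₁ / (m * (K₀ - 1))) := by rw [Finset.sum_mul]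
      _ ≤ m * (C₁ / (m * (K₀ - 1))) := mul_le_mul_of_nonneg_right hl (by positivity)
      _ = C₁ / (K₀ - 1) := by field_simp
      _ ≤ 1 / 4 := by
        rw [div_le_div_iff₀ hK1 (by norm_num)]
        linarith
  have m3 : 1 / 2 ≤ ‖Λ * ∫ u in (0 : ℝ)..a, fS l ∅ u‖ := by
    rw [hI]
    have h1 := norm_sub_norm_le (1 - fS l ∅ a)
      (∑ k ∈ Finset.univ, l k ^ 2 * ∫ u in (0 : ℝ)..a, (u : ℂ) * fS l (insert k ∅) u)
    have h2 := norm_sub_norm_le (1 : ℂ) (fS l ∅ a)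
    rw [norm_one] at h2
    linarith
  rw [norm_mul] at m3
  simp only [hfe] at m3
  rw [hnΛ]
  exact m3

end Pool.Agent.H628.BV
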